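import Pool.Agent.GWO.Derived

/-!
# Good `Σ₁(δ⁺)`-wellorderings and embeddings `j : V → M` with `P(δ⁺) ⊆ M`

The universe of sets is `ZFSet.{u}`.  Definitions used in the statement:
`Fml`, `Fml.Tr` (`Pool.Agent.SingleUlt.Ult`), `Idx`, `IsNormalMeasure`, `IsCollapse`, `col`, `Mod`,
`emb` (`Pool.Agent.SingleUlt.Normal`), `kap`, `o` (`Pool.Agent.SingleUlt.Normal2`), `Delta0`,
`Sigma1`, `asg`, `GoodWO` (`Pool.Agent.GWO.Basic`), `In`, `Elem` (`Pool.Agent.GWO.Elem`),
`HasCrit` (`Pool.Agent.GWO.CritB`).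
-/

namespace Pool.Agent.Results.MP_7d101e_lc.StrongUltrapower

open Pool.Agent.SingleUlt Pool.Agent.GWO Function Filter Cardinal Ordinal

universe u

/-- the set of all ordinals `α < δ` such that `φ` defines from `|α|⁺` the set of proper initial
segments of a wellordering, without last element, of the power set of `|α|⁺` -/
def Refl (φ : Fml) (δ : Cardinal.{u}) : Set (Idx δ) :=
  {α | GoodWO φ (kap (Order.succ α.1.card))}

theorem cde_refl (φ : Fml) (δ : Cardinal.{u}) : cde (Refl φ δ) = reflSet φ δ := by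
  ext z
  rw [mem_cde]
  unfold reflSet
  rw [ZFSet.mem_range]
  exact ⟨fun ⟨i, hi, h⟩ => ⟨⟨i, hi⟩, h⟩, fun ⟨i, h⟩ => ⟨i.1, i.2, h⟩⟩

/-- **Main result.**  Let `2^δ > δ⁺`, and let the `Σ₁`-formula `φ` define, with the parameter `δ⁺`,
the set of proper initial segments of a wellordering, without last element, of `P(δ⁺)`. -/
theorem result (δ : Cardinal.{u}) (hδ : ℵ₀ < δ) (h2 : Order.succ δ < 2 ^ δ)
    (φ : Fml) (hφ : Sigma1 φ) (hgood : GoodWO φ (kap (Order.succ δ))) :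
    -- (1) Let `j : V → M` be an elementary embedding with critical point `δ` into a transitive
    -- class, and `U` the derived normal measure.  Then `M` contains all subsets of `δ⁺` if and
    -- only if `φ` works at `|α|⁺` for `U`-almost all `α < δ`, if and only if the ultrapower `M_U`
    -- contains all subsets of `δ⁺`.
    (∀ (M : Set ZFSet.{u}) (j : ZFSet.{u} → ZFSet.{u}), HasCrit M j δ →
      ∃ U : Ultrafilter (Idx δ), IsNormalMeasure δ U ∧
        (∀ X : ZFSet.{u}, X ⊆ kap δ → ({i | o i ∈ X} ∈ U ↔ kap δ ∈ j X)) ∧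
        ((∀ A : ZFSet.{u}, A ⊆ kap (Order.succ δ) → A ∈ M) ↔ Refl φ δ ∈ U) ∧
        ((∀ A : ZFSet.{u}, A ⊆ kap (Order.succ δ) → A ∈ Mod U) ↔ Refl φ δ ∈ U)) ∧
    -- (the ultrapower embeddings by normal measures are examples, derived from themselves)
    (∀ U : Ultrafilter (Idx δ), IsNormalMeasure δ U →
      IsCollapse U (col U : (Idx δ → ZFSet.{u}) → ZFSet.{u}) ∧ HasCrit (Mod U) (emb U) δ ∧
        ∀ X : ZFSet.{u}, X ⊆ kap δ → ({i | o i ∈ X} ∈ U ↔ kap δ ∈ emb U X)) ∧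
    -- (2) In particular, if a normal measure `U` on `δ` is generated by at most `δ⁺` sets, then
    -- for `U`-almost all `α < δ` the formula `φ` does not work at `|α|⁺`.
    (∀ U : Ultrafilter (Idx δ), IsNormalMeasure δ U → ∀ B : Set (Set (Idx δ)),
      #B ≤ Cardinal.lift.{u+1} (Order.succ δ) → (∀ b ∈ B, b ∈ U) →
      (∀ X ∈ U, ∃ b ∈ B, b ⊆ X) → (Refl φ δ)ᶜ ∈ U) := by
  have key : ∀ (M : Set ZFSet.{u}) (j : ZFSet.{u} → ZFSet.{u}), HasCrit M j δ →
      ∀ U : Ultrafilter (Idx δ), (∀ S : Set (Idx δ), S ∈ U ↔ kap δ ∈ j (cde S)) →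
      ((∀ A : ZFSet.{u}, A ⊆ kap (Order.succ δ) → A ∈ M) ↔ Refl φ δ ∈ U) := by
    intro M j h U hU
    rw [h.main hδ hφ h2 hgood, hU, cde_refl]
  refine ⟨?_, ?_, ?_⟩
  · intro M j h
    obtain ⟨U, hU⟩ := h.exists_uf
    have hn := h.normal hδ hU
    refine ⟨U, hn, fun X hX => ?_, key M j h U hU, ?_⟩
    · rw [hU, cde_eq hX]
    · exact key _ _ (normal_hasCrit hn).1 U (normal_hasCrit hn).2
  · intro U hU
    refine ⟨col_isCollapse hU.tot, (normal_hasCrit hU).1, fun X hX => ?_⟩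
    rw [(normal_hasCrit hU).2, cde_eq hX]
  · intro U hU B hB hBU hgen
    rw [Ultrafilter.compl_mem_iff_notMem]
    intro hR
    have h4 := (key _ _ (normal_hasCrit hU).1 U (normal_hasCrit hU).2).2 hR
    exact small_base hU (fun A hA => (mem_Mod hU.tot A).1 (h4 A hA)) B hB hBU hgen

end Pool.Agent.Results.MP_7d101e_lc.StrongUltrapower
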